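import Pool.Agent.Q49.CM4
import Mathlib.Tactic
import Mathlib.Analysis.SpecialFunctions.Pow.Real
import Mathlib.Topology.Algebra.Order.LiminfLimsup

/-!
# MP_c3a542_nt: the parity-perturbed Conway–Mallows sequence

`b 1 = b 2 = 1` and `b n = b (b (n-1)) + b (n - b (n-1)) + (-1)^n` for `n ≥ 3`.
The recursion never breaks down, but `b n / n` does not converge to `(√5 - 1)/4 = 0.30901…`:
for infinitely many `n` the ratio is larger than `0.3176`.
-/

set_option autoImplicit false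

namespace Pool.Agent.Results.MP_c3a542_nt.RatioExceeds

open Filter Topology
open Pool.Agent.Q49.CM

/-- `b` is the sequence of the problem and it is defined for every `n ≥ 1`: both indices
`b (n-1)` and `n - b (n-1)` of the recursion lie in `{1, …, n-1}` for every `n ≥ 3`. -/
def IsSeq (b : ℕ → ℤ) : Prop :=
  b 1 = 1 ∧ b 2 = 1 ∧ ∀ n : ℕ, 3 ≤ n →
    (1 ≤ b (n - 1) ∧ b (n - 1) ≤ (n : ℤ) - 1) ∧
    (1 ≤ (n : ℤ) - b (n - 1) ∧ (n : ℤ) - b (n - 1) ≤ (n : ℤ) - 1) ∧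
    b n = b (b (n - 1)).toNat + b ((n : ℤ) - b (n - 1)).toNat + (-1) ^ n

lemma pre_of_isSeq {b : ℕ → ℤ} (h : IsSeq b) : Pre b :=
  ⟨h.1, h.2.1, fun n hn _ _ => (h.2.2 n hn).2.2⟩

lemma isSeq_bb : IsSeq bb := by
  refine ⟨pre_bb.1, pre_bb.2.1, fun n hn => ?_⟩
  have h := slowb pre_bb (n - 1) (by omega)
  refine ⟨⟨by omega, by omega⟩, ⟨by omega, by omega⟩, ?_⟩
  exact pre_bb.2.2 n hn (by omega) (by omega)

lemma freq {b : ℕ → ℤ} (h : IsSeq b) : ∃ᶠ n : ℕ in atTop, (0.3176 : ℝ) * n < b n := by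
  have hp := pre_of_isSeq h
  have hS := sys_of_pre hp
  rw [frequently_atTop]
  intro N
  refine ⟨(2 * mm (N + 23)).toNat, ?_, ?_⟩
  · have := mm_tendsto (N + 23)
    push_cast at this
    omega
  · have hm := mm_tendsto (N + 23)
    push_cast at hm
    have h1 := value hS (N + 20)
    have h2 := (gap N).1
    rw [show N + 20 + 3 = N + 23 by ring] at h1
    have h3 := QQ_eq hp (mm (N + 23)) (by omega)
    have h4 : 3176 * (2 * mm (N + 23)) < 10000 * b (2 * mm (N + 23)).toNat := by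
      rw [h3]; omega
    have h5 : (((2 * mm (N + 23)).toNat : ℕ) : ℝ) = ((2 * mm (N + 23) : ℤ) : ℝ) := by
      have : (((2 * mm (N + 23)).toNat : ℕ) : ℤ) = 2 * mm (N + 23) := by omega
      exact_mod_cast this
    rw [h5]
    have h6 : (3176 : ℝ) * ((2 * mm (N + 23) : ℤ) : ℝ) < 10000 * (b (2 * mm (N + 23)).toNat : ℝ) := by
      exact_mod_cast h4
    norm_num
    linarith [h6, show ((2 * mm (N + 23) : ℤ) : ℝ) = 2 * (mm (N + 23) : ℝ) by push_cast; ring]

/-- The recursion `b 1 = b 2 = 1`, `b n = b (b (n-1)) + b (n - b (n-1)) + (-1)^n` defines a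
sequence for all `n`; this sequence has `b n / n > 0.3176` for infinitely many `n`, and
`b n / n` does not tend to `(√5 - 1)/4 = 1/(2φ)`. -/
theorem result : (∃ b : ℕ → ℤ, IsSeq b) ∧
    ∀ b : ℕ → ℤ, IsSeq b →
      (∃ᶠ n : ℕ in atTop, (0.3176 : ℝ) * n < b n) ∧
      ¬ Tendsto (fun n : ℕ => (b n : ℝ) / n) atTop (𝓝 ((√5 - 1) / 4)) := by
  refine ⟨⟨bb, isSeq_bb⟩, fun b hb => ⟨freq hb, fun ht => ?_⟩⟩
  have h5 : √5 < 2.25 := by
    rw [Real.sqrt_lt' (by norm_num)]; norm_num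
  have hlt : (√5 - 1) / 4 < (0.3176 : ℝ) := by norm_num at h5 ⊢; linarith
  have hev := ht.eventually (gt_mem_nhds hlt)
  have hf := (freq hb).and_eventually (hev.and (eventually_gt_atTop 0))
  obtain ⟨n, h1, h2, h3⟩ := hf.exists
  have hn : (0 : ℝ) < n := by exact_mod_cast h3
  rw [div_lt_iff₀ hn] at h2
  linarith

end Pool.Agent.Results.MP_c3a542_nt.RatioExceeds
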